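import Mathlib

/-!
# CAN-L18: an adapted basis of a filtration
-/

universe u v

namespace Pool.Agent.Helper11.Can

namespace L18

open Module

variable {κ : Type u} [Field κ] {V : Type v} [AddCommGroup V] [Module κ V] [FiniteDimensional κ V]

/-- outside a proper subspace there is a vector which is as deep as possible in the filtration -/
theorem exists_max (F : ℝ → Submodule κ V) (hanti : Antitone F) (hbot : ∃ M, F M = ⊥)
    (htop : ∃ M, F M = ⊤) (hcont : ∀ a x, (∀ a' < a, x ∈ F a') → x ∈ F a)
    (U : Submodule κ V) (hU : U ≠ ⊤) :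
    ∃ x ∉ U, ∀ y ∉ U, ∀ a, y ∈ F a → x ∈ F a := by
  classical
  obtain ⟨M, hM⟩ := hbot
  obtain ⟨L, hL⟩ := htop
  set A : Set ℝ := {a | ¬ F a ≤ U} with hA
  have hLA : L ∈ A := by
    change ¬ F L ≤ U
    rw [hL]
    intro h
    exact hU (top_le_iff.1 h)
  have hbdd : BddAbove A := by
    refine ⟨M, fun a ha => ?_⟩
    by_contra hlt
    have hlt' : M ≤ a := (not_le.1 hlt).le
    apply ha
    exact (hanti hlt').trans (by rw [hM]; exact bot_le)
  set a₀ : ℝ := sSup A with ha₀
  have hdown : ∀ a < a₀, a ∈ A := by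
    intro a ha
    obtain ⟨a', ha', haa'⟩ := exists_lt_of_lt_csSup ⟨L, hLA⟩ ha
    intro h
    exact ha' ((hanti haa'.le).trans h)
  -- a level with the smallest dimension
  have hne : ({n | ∃ a < a₀, finrank κ (F a) = n} : Set ℕ).Nonempty :=
    ⟨_, a₀ - 1, by linarith, rfl⟩
  obtain ⟨a₁, ha₁, hn⟩ := Nat.sInf_mem hne
  have hmin : ∀ a < a₀, finrank κ (F a₁) ≤ finrank κ (F a) := by
    intro a ha
    rw [hn]
    exact Nat.sInf_le ⟨a, ha, rfl⟩
  have hle : ¬ F a₁ ≤ U := hdown a₁ ha₁
  obtain ⟨x, hxF, hxU⟩ := Set.not_subset.1 hle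
  have hx0 : x ∈ F a₀ := by
    apply hcont
    intro a' ha'
    rcases le_total a' a₁ with h | h
    · exact hanti h hxF
    · have : F a' = F a₁ := Submodule.eq_of_le_of_finrank_le (hanti h) (hmin a' ha')
      rw [this]
      exact hxF
  refine ⟨x, hxU, fun y hy a hya => ?_⟩
  have haA : a ∈ A := fun h => hy (h hya)
  exact hanti (le_csSup hbdd haA) hx0

theorem exists_family (F : ℝ → Submodule κ V) (hanti : Antitone F) (hbot : ∃ M, F M = ⊥)
    (htop : ∃ M, F M = ⊤) (hcont : ∀ a x, (∀ a' < a, x ∈ F a') → x ∈ F a) (k : ℕ)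
    (hk : k ≤ finrank κ V) :
    ∃ v : Fin k → V, LinearIndependent κ v ∧
      ∀ a, ∀ x ∈ Submodule.span κ (Set.range v), x ∈ F a →
        x ∈ Submodule.span κ (v '' {j | v j ∈ F a}) := by
  induction k with
  | zero =>
    refine ⟨Fin.elim0, linearIndependent_empty_type, ?_⟩
    intro a x hx _
    have : Set.range (Fin.elim0 : Fin 0 → V) = ∅ := Set.range_eq_empty _
    rw [this, Submodule.span_empty] at hx
    rw [(Submodule.mem_bot κ).1 hx]
    exact Submodule.zero_mem _
  | succ k ih =>
    obtain ⟨v, hv, hvF⟩ := ih (Nat.le_of_succ_le hk)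
    have hU : Submodule.span κ (Set.range v) ≠ ⊤ := by
      intro h
      have h1 : finrank κ (Submodule.span κ (Set.range v)) = k := by
        rw [finrank_span_eq_card hv, Fintype.card_fin]
      rw [h, finrank_top] at h1
      omega
    obtain ⟨x, hxU, hx⟩ := exists_max F hanti hbot htop hcont _ hU
    refine ⟨Fin.cons x v, linearIndependent_finCons.2 ⟨hv, hxU⟩, ?_⟩
    intro a y hy hyF
    rw [Fin.range_cons] at hy
    obtain ⟨c, z, hz, rfl⟩ := Submodule.mem_span_insert.1 hy
    have himg : v '' {j | v j ∈ F a} ⊆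
        (Fin.cons x v : Fin (k + 1) → V) '' {j | (Fin.cons x v : Fin (k + 1) → V) j ∈ F a} := by
      rintro _ ⟨j, hj, rfl⟩
      exact ⟨j.succ, by simpa using hj, by simp⟩
    by_cases hc : c = 0
    · subst hc
      rw [zero_smul, zero_add] at hyF ⊢
      exact Submodule.span_mono himg (hvF a z hz hyF)
    · have hyU : c • x + z ∉ Submodule.span κ (Set.range v) := by
        intro h
        have h2 : c • x ∈ Submodule.span κ (Set.range v) := by
          have := Submodule.sub_mem _ h hz
          simpa using this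
        exact hxU ((Submodule.smul_mem_iff _ hc).1 h2)
      have hxa : x ∈ F a := hx _ hyU a hyF
      have hza : z ∈ F a := by
        have := Submodule.sub_mem _ hyF (Submodule.smul_mem _ c hxa)
        simpa using this
      refine Submodule.add_mem _ (Submodule.smul_mem _ _ (Submodule.subset_span ?_))
        (Submodule.span_mono himg (hvF a z hz hza))
      exact ⟨0, by simpa using hxa, by simp⟩

end L18

open L18 Module in
/-- CAN-L18: an adapted basis of a filtration. -/
theorem exists_adapted_basis {κ : Type u} [Field κ] {m : ℕ} (F : ℝ → Submodule κ (Fin m → κ))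
    (hanti : Antitone F) (hbot : ∃ M, F M = ⊥) (htop : ∃ M, F M = ⊤)
    (hcont : ∀ a x, (∀ a' < a, x ∈ F a') → x ∈ F a) :
    ∃ (h : Matrix (Fin m) (Fin m) κ) (γ : Fin m → ℝ), h.det ≠ 0 ∧
      ∀ a x, x ∈ F a ↔ ∀ b, γ b < a → h.mulVec x b = 0 := by
  classical
  have hfr : finrank κ (Fin m → κ) = m := by simp
  obtain ⟨v, hv, hvF⟩ := exists_family F hanti hbot htop hcont m hfr.ge
  have htopv : Submodule.span κ (Set.range v) = ⊤ := by
    apply Submodule.eq_top_of_finrank_eq
    rw [finrank_span_eq_card hv, hfr, Fintype.card_fin]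
  let b : Basis (Fin m) κ (Fin m → κ) := Basis.mk hv htopv.ge
  have hb : ∀ j, b j = v j := fun j => by simp [b]
  obtain ⟨M, hM⟩ := hbot
  obtain ⟨L, hL⟩ := htop
  -- depth
  have hdepth : ∀ j, ∃ g : ℝ, ∀ a, v j ∈ F a ↔ a ≤ g := by
    intro j
    have hne : ({a | v j ∈ F a} : Set ℝ).Nonempty := ⟨L, by
      change v j ∈ F L
      rw [hL]; trivial⟩
    have hbdd : BddAbove {a | v j ∈ F a} := by
      refine ⟨M, fun a ha => ?_⟩
      by_contra hlt
      have h1 : v j ∈ F M := hanti (not_le.1 hlt).le ha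
      rw [hM, Submodule.mem_bot] at h1
      exact hv.ne_zero j h1
    refine ⟨sSup {a | v j ∈ F a}, fun a => ⟨fun h => le_csSup hbdd h, fun h => ?_⟩⟩
    refine hanti h (hcont _ _ fun a' ha' => ?_)
    obtain ⟨a'', h1, h2⟩ := exists_lt_of_lt_csSup hne ha'
    exact hanti h2.le h1
  choose γ hγ using hdepth
  refine ⟨LinearMap.toMatrix' (b.equivFun : (Fin m → κ) →ₗ[κ] (Fin m → κ)), γ, ?_, ?_⟩
  · rw [LinearMap.det_toMatrix']
    exact (LinearEquiv.isUnit_det' b.equivFun).ne_zero
  · intro a x
    have hmv : ∀ j, (LinearMap.toMatrix' (b.equivFun : (Fin m → κ) →ₗ[κ] (Fin m → κ))).mulVec x j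
        = b.repr x j := by
      intro j
      rw [LinearMap.toMatrix'_mulVec]
      rfl
    simp only [hmv]
    have hspan : x ∈ F a ↔ x ∈ Submodule.span κ (b '' {j | v j ∈ F a}) := by
      have hbv : (b : Fin m → (Fin m → κ)) = v := funext hb
      rw [hbv]
      constructor
      · intro hx
        refine hvF a x ?_ hx
        have : Submodule.span κ (Set.range v) = ⊤ := by
          rw [← hbv]; exact b.span_eq
        rw [this]; trivial
      · intro hx
        refine (Submodule.span_le.2 ?_) hx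
        rintro _ ⟨j, hj, rfl⟩
        exact hj
    rw [hspan, b.mem_span_image]
    constructor
    · intro h j hj
      by_contra hne
      have : j ∈ {j | v j ∈ F a} := h (by simpa using hne)
      have h2 : a ≤ γ j := (hγ j a).1 this
      linarith
    · intro h j hj
      have hne : b.repr x j ≠ 0 := by simpa using hj
      change v j ∈ F a
      rw [hγ]
      by_contra hlt
      exact hne (h j (not_le.1 hlt))

end Pool.Agent.Helper11.Can
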